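import Pool.Agent.Helper37.RG3.Goals

set_option autoImplicit false

/-!
Every `r`-graph with `r > 0` has a perfect matching (Tutte).
-/

namespace Pool.Agent.Helper35.RG3

open Finset Pool.Agent.Helper37.RG3

variable {V : Type} [Fintype V] [DecidableEq V]

/-- the underlying simple graph on `U`. -/
def gU (U : Finset V) (w : V → V → ℕ) : SimpleGraph {v // v ∈ U} :=
  SimpleGraph.fromRel (fun a b => w a.1 b.1 ≠ 0)

theorem gU_adj {U : Finset V} {w : V → V → ℕ} {r : ℕ} (h : RG U w r) (a b : {v // v ∈ U}) :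
    (gU U w).Adj a b ↔ w a.1 b.1 ≠ 0 := by
  unfold gU
  rw [SimpleGraph.fromRel_adj]
  constructor
  · rintro ⟨-, h1 | h1⟩
    · exact h1
    · rw [h.symm]; exact h1
  · intro h1
    refine ⟨?_, Or.inl h1⟩
    rintro rfl
    exact h1 (h.irr _)

/-- membership in a component after deleting `S`. -/
def InK {X : Type} (G : SimpleGraph X) (S : Set X)
    (C : ((⊤ : G.Subgraph).deleteVerts S).coe.ConnectedComponent) (x : X) : Prop :=
  ∃ h : x ∈ ((⊤ : G.Subgraph).deleteVerts S).verts,
    ((⊤ : G.Subgraph).deleteVerts S).coe.connectedComponentMk ⟨x, h⟩ = C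

theorem InK.not_mem {X : Type} {G : SimpleGraph X} {S : Set X}
    {C : ((⊤ : G.Subgraph).deleteVerts S).coe.ConnectedComponent} {x : X}
    (h : InK G S C x) : x ∉ S := by
  obtain ⟨h, -⟩ := h
  simpa using h

theorem InK.adj {X : Type} {G : SimpleGraph X} {S : Set X}
    {C : ((⊤ : G.Subgraph).deleteVerts S).coe.ConnectedComponent} {x y : X}
    (h : InK G S C x) (hxy : G.Adj x y) (hy : y ∉ S) : InK G S C y := by
  obtain ⟨h1, h2⟩ := h
  have hy' : y ∈ ((⊤ : G.Subgraph).deleteVerts S).verts := by simpa using hy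
  refine ⟨hy', ?_⟩
  rw [← h2, SimpleGraph.ConnectedComponent.eq]
  refine SimpleGraph.Adj.reachable ?_
  rw [SimpleGraph.Subgraph.coe_adj, SimpleGraph.Subgraph.deleteVerts_adj]
  refine ⟨by simp, hy, by simp, ?_, ?_⟩
  · simpa using h1
  · simpa using hxy.symm

open Classical in
/-- the component as a finite set of vertices. -/
noncomputable def KK (U : Finset V) (w : V → V → ℕ) (S : Set {v // v ∈ U})
    (C : ((⊤ : (gU U w).Subgraph).deleteVerts S).coe.ConnectedComponent) : Finset V :=
  univ.filter fun v => ∃ h : v ∈ U, InK (gU U w) S C ⟨v, h⟩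

open Classical in
/-- the deleted set as a finite set of vertices. -/
noncomputable def SS (U : Finset V) (S : Set {v // v ∈ U}) : Finset V :=
  univ.filter fun v => ∃ h : v ∈ U, (⟨v, h⟩ : {v // v ∈ U}) ∈ S

theorem mem_KK {U : Finset V} {w : V → V → ℕ} {S : Set {v // v ∈ U}}
    {C : ((⊤ : (gU U w).Subgraph).deleteVerts S).coe.ConnectedComponent} {v : V} :
    v ∈ KK U w S C ↔ ∃ h : v ∈ U, InK (gU U w) S C ⟨v, h⟩ := by
  simp [KK]

theorem mem_SS {U : Finset V} {S : Set {v // v ∈ U}} {v : V} :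
    v ∈ SS U S ↔ ∃ h : v ∈ U, (⟨v, h⟩ : {v // v ∈ U}) ∈ S := by
  simp [SS]

theorem card_KK {U : Finset V} {w : V → V → ℕ} {S : Set {v // v ∈ U}}
    (C : ((⊤ : (gU U w).Subgraph).deleteVerts S).coe.ConnectedComponent) :
    (KK U w S C).card = C.supp.ncard := by
  classical
  have h1 : ((fun x : ((⊤ : (gU U w).Subgraph).deleteVerts S).verts => x.1.1) '' C.supp)
      = ((KK U w S C : Finset V) : Set V) := by
    ext v
    simp only [Set.mem_image, Finset.mem_coe, mem_KK]
    constructor
    · rintro ⟨⟨x, hx⟩, hxC, rfl⟩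
      exact ⟨x.2, hx, hxC⟩
    · rintro ⟨h2, h3, h4⟩
      exact ⟨⟨⟨v, h2⟩, h3⟩, h4, rfl⟩
  rw [← Set.ncard_coe_finset, ← h1]
  refine Set.ncard_image_of_injective _ ?_
  intro a b hab
  exact Subtype.ext (Subtype.ext hab)

theorem card_SS {U : Finset V} (S : Set {v // v ∈ U}) : (SS U S).card = S.ncard := by
  classical
  have h1 : ((fun x : {v // v ∈ U} => x.1) '' S) = ((SS U S : Finset V) : Set V) := by
    ext v
    simp only [Set.mem_image, Finset.mem_coe, mem_SS]
    constructor
    · rintro ⟨x, hx, rfl⟩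
      exact ⟨x.2, hx⟩
    · rintro ⟨h2, h3⟩
      exact ⟨⟨v, h2⟩, h3, rfl⟩
  rw [← Set.ncard_coe_finset, ← h1]
  exact Set.ncard_image_of_injective _ Subtype.val_injective

theorem xpm : XPM := by
  classical
  intro V _ _ U w r h hr0
  have key : ∃ M : (gU U w).Subgraph, M.IsPerfectMatching := by
    rw [SimpleGraph.tutte]
    intro S hS
    unfold SimpleGraph.IsTutteViolator at hS
    set G' := ((⊤ : (gU U w).Subgraph).deleteVerts S).coe with hG'
    have hfin : (G'.oddComponents).Finite := Set.toFinite _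
    set O : Finset G'.ConnectedComponent := hfin.toFinset with hO
    have hOc : G'.oddComponents.ncard = O.card := by
      rw [hO, ← Set.ncard_eq_toFinset_card _ hfin]
    have hmemO : ∀ C, C ∈ O ↔ Odd C.supp.ncard := by
      intro C
      rw [hO, Set.Finite.mem_toFinset]
      rfl
    have hsub : ∀ C, KK U w S C ⊆ U := fun C v hv => (mem_KK.mp hv).1
    have hlow : ∀ C ∈ O, r ≤ bt w (KK U w S C) (SS U S) := by
      intro C hC
      have h1 : r ≤ ct w (KK U w S C) :=
        h.cut _ (hsub C) (by rw [card_KK]; exact (hmemO C).mp hC)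
      refine h1.trans ?_
      unfold ct bt
      refine Finset.sum_le_sum fun a ha => ?_
      rw [← Finset.sum_subset (s₁ := (KK U w S C)ᶜ ∩ SS U S) Finset.inter_subset_left ?_]
      · exact Finset.sum_le_sum_of_subset Finset.inter_subset_right
      · intro b hb hb'
        by_contra hne
        obtain ⟨haU, haK⟩ := mem_KK.mp ha
        have hbU : b ∈ U := h.supp b a (by rw [h.symm]; exact hne)
        have hadj : (gU U w).Adj ⟨a, haU⟩ ⟨b, hbU⟩ := (gU_adj h _ _).mpr hne
        have hbS : (⟨b, hbU⟩ : {v // v ∈ U}) ∉ S := by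
          intro hbS
          exact hb' (Finset.mem_inter.mpr ⟨hb, mem_SS.mpr ⟨hbU, hbS⟩⟩)
        exact (Finset.mem_compl.mp hb) (mem_KK.mpr ⟨hbU, haK.adj hadj hbS⟩)
    have hdisj : ∀ C ∈ O, ∀ C' ∈ O, C ≠ C' → Disjoint (KK U w S C) (KK U w S C') := by
      intro C _ C' _ hne
      rw [Finset.disjoint_left]
      intro v hv hv'
      obtain ⟨h1, h2, h3⟩ := mem_KK.mp hv
      obtain ⟨h1', h2', h3'⟩ := mem_KK.mp hv'
      exact hne (h3.symm.trans h3')
    have hsum : ∑ C ∈ O, bt w (KK U w S C) (SS U S) ≤ r * (SS U S).card := by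
      have h1 : ∑ C ∈ O, bt w (KK U w S C) (SS U S)
          = bt w (O.biUnion fun C => KK U w S C) (SS U S) := by
        unfold bt
        rw [Finset.sum_biUnion]
        intro C hC C' hC' hne
        exact hdisj C hC C' hC' hne
      rw [h1]
      calc bt w (O.biUnion fun C => KK U w S C) (SS U S) ≤ bt w univ (SS U S) :=
            bt_mono w (Finset.subset_univ _) subset_rfl
        _ = ∑ b ∈ SS U S, ∑ a, w b a := by
            unfold bt
            rw [Finset.sum_comm]
            exact Finset.sum_congr rfl fun b _ => Finset.sum_congr rfl fun a _ => h.symm a b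
        _ = ∑ b ∈ SS U S, r := Finset.sum_congr rfl fun b hb => h.deg b (mem_SS.mp hb).1
        _ = r * (SS U S).card := by rw [Finset.sum_const, smul_eq_mul, mul_comm]
    have h2 : r * O.card ≤ ∑ C ∈ O, bt w (KK U w S C) (SS U S) := by
      rw [mul_comm, ← smul_eq_mul]
      exact Finset.card_nsmul_le_sum _ _ _ hlow
    have h3 : O.card ≤ (SS U S).card := Nat.le_of_mul_le_mul_left (h2.trans hsum) hr0
    rw [card_SS] at h3
    rw [hOc] at hS
    exact absurd hS (not_lt.mpr h3)
  obtain ⟨M, hM1, hM2⟩ := key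
  have hex : ∀ v, ∃! u, M.Adj v u := fun v => hM1 (hM2 v)
  choose m hm hmu using hex
  have hmm : ∀ v, m (m v) = v := fun v => (hmu (m v) v (hm v).symm).symm
  refine ⟨fun v => if hv : v ∈ U then (m ⟨v, hv⟩).1 else v, ?_, ?_, ?_⟩
  · intro u
    by_cases hu : u ∈ U
    · have h1 : (m ⟨u, hu⟩).1 ∈ U := (m ⟨u, hu⟩).2
      simp only [hu, dif_pos, h1, Subtype.coe_eta, hmm]
    · simp only [hu, dif_neg, not_false_iff]
  · intro u hu
    simp only [hu, dif_neg, not_false_iff]
  · intro u hu
    simp only [hu, dif_pos]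
    exact (gU_adj h _ _).mp (M.adj_sub (hm ⟨u, hu⟩))

end Pool.Agent.Helper35.RG3
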